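import Mathlib
import Pool.Agent.V11212.Sh.Gen

/-!
# Shadows of Rips complexes of noisy samples of a closed curve

There is a smooth simple closed curve in `ℝ⁴` such that for every small scale there are
arbitrarily good finite samples for which the shadow of the Rips complex is not homotopy
equivalent to the curve.
-/

set_option autoImplicit false

open Set Topology Metric Filter
open scoped ContDiff

namespace Pool.Agent.Results.MP_937632_gt.StraightPiece

/-- Euclidean space `ℝᴺ`. -/
abbrev E (N : ℕ) : Type := EuclideanSpace ℝ (Fin N)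

/-- `M` is a smooth simple closed curve: the image of a smooth 1-periodic map with nowhere
vanishing derivative which is injective on a period. -/
def SmoothClosedCurve {N : ℕ} (M : Set (E N)) : Prop :=
  ∃ γ : ℝ → E N, ContDiff ℝ ∞ γ ∧ Function.Periodic γ 1 ∧ (∀ t, deriv γ t ≠ 0) ∧
    InjOn γ (Ico 0 1) ∧ M = range γ

/-- The shadow of the Euclidean Rips complex of `S` at scale `β`: the union of the convex hulls
of the nonempty subsets of `S` with Euclidean diameter less than `β`. -/
def Shadow {N : ℕ} (β : ℝ) (S : Set (E N)) : Set (E N) :=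
  ⋃ σ ∈ {σ : Set (E N) | σ ⊆ S ∧ σ.Nonempty ∧ diam σ < β}, convexHull ℝ σ

/-- the cut-off function -/
noncomputable def cut (s : ℝ) : ℝ := Real.smoothTransition (-10 * s - 5)

/-- the inverse radius -/
noncomputable def rr (s : ℝ) : ℝ := cut s * (-s) + (1 - cut s)

lemma cut_one {s : ℝ} (hs : s ≤ -3 / 5) : cut s = 1 :=
  Real.smoothTransition.one_of_one_le (by linarith)

lemma cut_zero {s : ℝ} (hs : -1 / 2 ≤ s) : cut s = 0 :=
  Real.smoothTransition.zero_of_nonpos (by linarith)

lemma cut_nonneg (s : ℝ) : 0 ≤ cut s := Real.smoothTransition.nonneg _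

lemma cut_le_one (s : ℝ) : cut s ≤ 1 := Real.smoothTransition.le_one _

lemma rr_pos (s : ℝ) : 0 < rr s := by
  unfold rr
  rcases le_or_gt (-1 / 2) s with h | h
  · rw [cut_zero h]
    norm_num
  · have h0 := cut_nonneg s
    have h1 := cut_le_one s
    nlinarith

lemma rr_of_le {s : ℝ} (hs : s ≤ -3 / 5) : rr s = -s := by
  unfold rr
  rw [cut_one hs]
  ring

lemma rr_of_ge {s : ℝ} (hs : -1 / 2 ≤ s) : rr s = 1 := by
  unfold rr
  rw [cut_zero hs]
  ring

lemma rr_le_one {s : ℝ} (hs : -1 ≤ s) : rr s ≤ 1 := by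
  unfold rr
  have h0 := cut_nonneg s
  nlinarith

lemma contDiff_rr : ContDiff ℝ ∞ rr := by
  have h1 : ContDiff ℝ ∞ cut := by
    unfold cut
    have h : ContDiff ℝ ∞ fun s : ℝ => -10 * s - 5 := by fun_prop
    exact Real.smoothTransition.contDiff.comp h
  unfold rr
  exact (h1.mul contDiff_neg).add (contDiff_const.sub h1)

/-- the point of the curve in a given direction -/
noncomputable def cv (x y : ℝ) : E 4 := !₂[x / rr y, 1 + y / rr y, 0, 0]

/-- the curve -/
noncomputable def γ (t : ℝ) : E 4 := cv (Real.cos (2 * Real.pi * t)) (Real.sin (2 * Real.pi * t))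

/-- the curve as a set -/
noncomputable def M : Set (E 4) := range γ

lemma γ0 (t : ℝ) : γ t 0 = Real.cos (2 * Real.pi * t) / rr (Real.sin (2 * Real.pi * t)) := by
  simp [γ, cv]

lemma γ1 (t : ℝ) : γ t 1 = 1 + Real.sin (2 * Real.pi * t) / rr (Real.sin (2 * Real.pi * t)) := by
  simp [γ, cv]

lemma contDiff_γ : ContDiff ℝ ∞ γ := by
  have hc : ContDiff ℝ ∞ fun t : ℝ => Real.cos (2 * Real.pi * t) :=
    Real.contDiff_cos.comp (by fun_prop)
  have hs : ContDiff ℝ ∞ fun t : ℝ => Real.sin (2 * Real.pi * t) :=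
    Real.contDiff_sin.comp (by fun_prop)
  have hr : ContDiff ℝ ∞ fun t : ℝ => rr (Real.sin (2 * Real.pi * t)) := contDiff_rr.comp hs
  have hne : ∀ t : ℝ, rr (Real.sin (2 * Real.pi * t)) ≠ 0 := fun t => (rr_pos _).ne'
  rw [contDiff_euclidean]
  intro i
  fin_cases i
  · change ContDiff ℝ ∞ fun t : ℝ => γ t 0
    simp only [γ0]
    exact hc.div hr hne
  · change ContDiff ℝ ∞ fun t : ℝ => γ t 1
    simp only [γ1]
    exact contDiff_const.add (hs.div hr hne)
  · change ContDiff ℝ ∞ fun t : ℝ => γ t 2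
    have : (fun t : ℝ => γ t 2) = fun _ => (0 : ℝ) := by
      funext t
      simp [γ, cv]
    rw [this]
    exact contDiff_const
  · change ContDiff ℝ ∞ fun t : ℝ => γ t 3
    have : (fun t : ℝ => γ t 3) = fun _ => (0 : ℝ) := by
      funext t
      simp [γ, cv]
    rw [this]
    exact contDiff_const

lemma periodic_γ : Function.Periodic γ 1 := by
  intro t
  unfold γ
  have h : 2 * Real.pi * (t + 1) = 2 * Real.pi * t + 2 * Real.pi := by ring
  rw [h, Real.cos_add_two_pi, Real.sin_add_two_pi]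

lemma deriv_γ_ne (t : ℝ) : deriv γ t ≠ 0 := by
  intro h0
  have hd : HasDerivAt γ (deriv γ t) t :=
    ((contDiff_γ.differentiable (by simp)) t).hasDerivAt
  rw [h0] at hd
  have hp : ∀ i : Fin 4, HasDerivAt (fun t => γ t i) 0 t := by
    intro i
    have h := (EuclideanSpace.proj i : E 4 →L[ℝ] ℝ).hasFDerivAt.comp_hasDerivAt
      t hd
    rw [map_zero] at h
    exact h
  have hs : ContDiff ℝ ∞ fun t : ℝ => Real.sin (2 * Real.pi * t) :=
    Real.contDiff_sin.comp (by fun_prop)
  have hr : ContDiff ℝ ∞ fun t : ℝ => (rr (Real.sin (2 * Real.pi * t)))⁻¹ :=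
    (contDiff_rr.comp hs).inv fun t => (rr_pos _).ne'
  obtain ⟨R', hR'⟩ : ∃ R', HasDerivAt (fun t : ℝ => (rr (Real.sin (2 * Real.pi * t)))⁻¹) R' t :=
    ⟨_, ((hr.differentiable (by simp)) t).hasDerivAt⟩
  have hlin : HasDerivAt (fun t : ℝ => 2 * Real.pi * t) (2 * Real.pi) t := by
    simpa using (hasDerivAt_id t).const_mul (2 * Real.pi)
  have hcos := hlin.cos
  have hsin := hlin.sin
  have g0 : HasDerivAt (fun t => γ t 0) (-Real.sin (2 * Real.pi * t) * (2 * Real.pi) *
      (rr (Real.sin (2 * Real.pi * t)))⁻¹ + Real.cos (2 * Real.pi * t) * R') t := by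
    have h := hcos.mul hR'
    have e : (fun t => γ t 0) = (fun t : ℝ => Real.cos (2 * Real.pi * t)) *
        fun t : ℝ => (rr (Real.sin (2 * Real.pi * t)))⁻¹ := by
      funext t
      rw [γ0]
      rfl
    rw [e]
    exact h
  have g1 : HasDerivAt (fun t => γ t 1) (Real.cos (2 * Real.pi * t) * (2 * Real.pi) *
      (rr (Real.sin (2 * Real.pi * t)))⁻¹ + Real.sin (2 * Real.pi * t) * R') t := by
    have h := (hsin.mul hR').const_add 1
    have e : (fun t => γ t 1) = fun t : ℝ => 1 + ((fun t : ℝ => Real.sin (2 * Real.pi * t)) *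
        fun t : ℝ => (rr (Real.sin (2 * Real.pi * t)))⁻¹) t := by
      funext t
      rw [γ1]
      rfl
    rw [e]
    exact h
  have e0 := (hp 0).unique g0
  have e1 := (hp 1).unique g1
  have hR := inv_pos.2 (rr_pos (Real.sin (2 * Real.pi * t)))
  have hsc := Real.sin_sq_add_cos_sq (2 * Real.pi * t)
  have hpi := Real.pi_pos
  have key : 2 * Real.pi * (rr (Real.sin (2 * Real.pi * t)))⁻¹ = 0 := by
    linear_combination Real.sin (2 * Real.pi * t) * e0 - Real.cos (2 * Real.pi * t) * e1 -
      (2 * Real.pi * (rr (Real.sin (2 * Real.pi * t)))⁻¹) * hsc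
  have : 0 < 2 * Real.pi * (rr (Real.sin (2 * Real.pi * t)))⁻¹ := by positivity
  linarith

/-- the direction of a point as seen from the centre -/
lemma dir_unique {x y x' y' r r' : ℝ} (h : x ^ 2 + y ^ 2 = 1) (h' : x' ^ 2 + y' ^ 2 = 1)
    (hr : 0 < r) (hr' : 0 < r') (e1 : x / r = x' / r') (e2 : y / r = y' / r') :
    x = x' ∧ y = y' := by
  have h1 : x * r' = x' * r := by
    rw [div_eq_div_iff hr.ne' hr'.ne'] at e1
    exact e1
  have h2 : y * r' = y' * r := by
    rw [div_eq_div_iff hr.ne' hr'.ne'] at e2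
    exact e2
  have h3 : r' ^ 2 = r ^ 2 := by
    have : (x * r') ^ 2 + (y * r') ^ 2 = (x' * r) ^ 2 + (y' * r) ^ 2 := by rw [h1, h2]
    linear_combination this - r' ^ 2 * h + r ^ 2 * h'
  have h4 : r' = r := by
    rw [sq_eq_sq₀ hr'.le hr.le] at h3
    exact h3
  rw [h4] at h1 h2
  exact ⟨mul_right_cancel₀ hr.ne' h1, mul_right_cancel₀ hr.ne' h2⟩

lemma injOn_γ : InjOn γ (Ico 0 1) := by
  intro s hs t ht hst
  have c0 := congrArg (fun x : E 4 => x 0) hst
  have c1 := congrArg (fun x : E 4 => x 1) hst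
  simp only [γ0, γ1, add_right_inj] at c0 c1
  obtain ⟨h1, h2⟩ := dir_unique (by rw [add_comm]; exact Real.sin_sq_add_cos_sq _)
    (by rw [add_comm]; exact Real.sin_sq_add_cos_sq _) (rr_pos _) (rr_pos _) c0 c1
  have h3 := Real.Angle.cos_sin_inj h1 h2
  rw [Real.Angle.angle_eq_iff_two_pi_dvd_sub] at h3
  obtain ⟨k, hk⟩ := h3
  have hpi := Real.pi_pos
  have h4 : s - t = k := by
    have : 2 * Real.pi * (s - t) = 2 * Real.pi * k := by rw [← hk]; ring
    exact mul_left_cancel₀ (by positivity) this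
  have h5 : (k : ℝ) < 1 := by rw [← h4]; linarith [hs.2, ht.1]
  have h6 : (-1 : ℝ) < k := by rw [← h4]; linarith [hs.1, ht.2]
  have h7 : k = 0 := by
    have h5' : k < 1 := by exact_mod_cast h5
    have h6' : -1 < k := by exact_mod_cast h6
    omega
  rw [h7, Int.cast_zero] at h4
  linarith

/-- every direction occurs -/
lemma cv_mem {x y : ℝ} (h : x ^ 2 + y ^ 2 = 1) : cv x y ∈ M := by
  obtain ⟨θ, h1, h2⟩ : ∃ θ : ℝ, Real.cos θ = x ∧ Real.sin θ = y := by
    have hn : ‖(⟨x, y⟩ : ℂ)‖ = 1 := by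
      rw [Complex.norm_def, Complex.normSq_mk]
      rw [show x * x + y * y = 1 by nlinarith, Real.sqrt_one]
    have hne : (⟨x, y⟩ : ℂ) ≠ 0 := by
      intro h0
      rw [h0, norm_zero] at hn
      exact zero_ne_one hn
    refine ⟨Complex.arg ⟨x, y⟩, ?_, ?_⟩
    · rw [Complex.cos_arg hne, hn, div_one]
    · rw [Complex.sin_arg, hn, div_one]
  refine ⟨θ / (2 * Real.pi), ?_⟩
  have hpi := Real.pi_pos
  have h3 : 2 * Real.pi * (θ / (2 * Real.pi)) = θ := by field_simp
  unfold γ
  rw [h3, h1, h2]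

lemma exists_dir {p : E 4} (hp : p ∈ M) : ∃ x y : ℝ, x ^ 2 + y ^ 2 = 1 ∧ p = cv x y := by
  obtain ⟨t, rfl⟩ := hp
  exact ⟨_, _, by rw [add_comm]; exact Real.sin_sq_add_cos_sq (2 * Real.pi * t), rfl⟩

open Pool.Agent.V11212.Sh (sg)

lemma sg_subset : sg ⊆ M := by
  rintro p ⟨h0, h1, h2, h3⟩
  rw [abs_le] at h0
  have hq : 0 < 1 + p 0 ^ 2 := by positivity
  set w := Real.sqrt (1 + p 0 ^ 2) with hw
  have hw0 : 0 < w := Real.sqrt_pos.2 hq
  have hw2 : w ^ 2 = 1 + p 0 ^ 2 := Real.sq_sqrt hq.le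
  have hw3 : w ≤ 5 / 3 := by nlinarith
  have hs : -(1 / w) ≤ -3 / 5 := by
    have : 3 / 5 ≤ 1 / w := by
      rw [le_div_iff₀ hw0]
      linarith
    linarith
  have hm : cv (p 0 / w) (-(1 / w)) ∈ M := by
    apply cv_mem
    field_simp
    linarith
  have e : cv (p 0 / w) (-(1 / w)) = p := by
    unfold cv
    rw [rr_of_le hs]
    ext i
    fin_cases i
    · simp
      field_simp
    · simp [h1]
      field_simp
      ring
    · simp [h2]
    · simp [h3]
  rw [← e]
  exact hm

lemma abs_coord_le_norm (p : E 4) (i : Fin 4) : |p i| ≤ ‖p‖ := by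
  have := PiLp.norm_apply_le p i
  simpa using this

lemma loc {p : E 4} (hp : p ∈ M) (hn : ‖p‖ < 1 / 2) : p ∈ sg := by
  obtain ⟨x, y, hxy, rfl⟩ := exists_dir hp
  have hy1 : -1 ≤ y := by nlinarith [sq_nonneg x]
  have n0 := (abs_coord_le_norm (cv x y) 0).trans_lt hn
  have n1 := (abs_coord_le_norm (cv x y) 1).trans_lt hn
  have e0 : cv x y 0 = x / rr y := by simp [cv]
  have e1 : cv x y 1 = 1 + y / rr y := by simp [cv]
  have e2 : cv x y 2 = 0 := by simp [cv]
  have e3 : cv x y 3 = 0 := by simp [cv]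
  rw [e0] at n0
  rw [e1] at n1
  rcases le_or_gt y (-3 / 5) with h | h
  · refine ⟨?_, ?_, e2, e3⟩
    · rw [e0]
      linarith
    · rw [e1, rr_of_le h]
      have : y ≠ 0 := by linarith
      field_simp
      ring
  · exfalso
    rcases le_or_gt (-1 / 2) y with h' | h'
    · rw [rr_of_ge h', div_one, abs_lt] at n1
      linarith
    · have h1 := rr_le_one hy1
      have h2 := rr_pos y
      have h3 : |x| ≤ |x / rr y| := by
        rw [abs_div, abs_of_pos h2, le_div_iff₀ h2]
        nlinarith [abs_nonneg x]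
      have h4 : |x| < 1 / 2 := h3.trans_lt n0
      have h5 : x ^ 2 < (1 / 2) ^ 2 := by
        rw [← sq_abs x]
        exact pow_lt_pow_left₀ h4 (abs_nonneg x) two_ne_zero
      nlinarith

lemma isCompact_M : IsCompact M := by
  have h : M = γ '' Icc 0 1 := by
    unfold M
    ext p
    constructor
    · rintro ⟨t, rfl⟩
      obtain ⟨s, hs, hst⟩ := periodic_γ.exists_mem_Ico₀ one_pos t
      exact ⟨s, Ico_subset_Icc_self hs, hst.symm⟩
    · rintro ⟨t, -, rfl⟩
      exact ⟨t, rfl⟩
  rw [h]
  exact isCompact_Icc.image contDiff_γ.continuous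

/-- from the circle to the curve -/
noncomputable def fromCircle : C(Circle, M) where
  toFun z := ⟨cv (z : ℂ).re (z : ℂ).im, cv_mem (by
    have h := Circle.normSq_coe z
    rw [Complex.normSq_apply] at h
    linarith)⟩
  continuous_toFun := by
    refine Continuous.subtype_mk ?_ _
    unfold cv
    have hre : Continuous fun z : Circle => (z : ℂ).re :=
      Complex.continuous_re.comp continuous_subtype_val
    have him : Continuous fun z : Circle => (z : ℂ).im :=
      Complex.continuous_im.comp continuous_subtype_val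
    have hr : Continuous fun z : Circle => rr (z : ℂ).im := contDiff_rr.continuous.comp him
    have h : Continuous fun z : Circle =>
        (![(z : ℂ).re / rr (z : ℂ).im, 1 + (z : ℂ).im / rr (z : ℂ).im, 0, 0] : Fin 4 → ℝ) := by
      refine continuous_pi fun i => ?_
      fin_cases i
      · exact hre.div hr fun z => (rr_pos _).ne'
      · exact continuous_const.add (him.div hr fun z => (rr_pos _).ne')
      · exact continuous_const
      · exact continuous_const
    exact (PiLp.continuous_toLp 2 _).comp h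

/-- the direction as a complex number -/
noncomputable def dirc (p : E 4) : ℂ := ⟨p 0, p 1 - 1⟩

lemma dirc_cv (x y : ℝ) : dirc (cv x y) = ((1 / rr y : ℝ) : ℂ) * ⟨x, y⟩ := by
  apply Complex.ext
  · simp [dirc, cv]
    ring
  · simp [dirc, cv]
    ring

lemma dirc_ne {p : E 4} (hp : p ∈ M) : dirc p ≠ 0 := by
  obtain ⟨x, y, hxy, rfl⟩ := exists_dir hp
  rw [dirc_cv]
  refine mul_ne_zero ?_ ?_
  · have := rr_pos y
    exact_mod_cast (by positivity : (1 / rr y : ℝ) ≠ 0)
  · intro h
    have h1 := congrArg Complex.re h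
    have h2 := congrArg Complex.im h
    simp at h1 h2
    rw [h1, h2] at hxy
    norm_num at hxy

/-- from the curve to the circle -/
noncomputable def toCircle : C(M, Circle) where
  toFun p := ⟨dirc p.1 / ‖dirc p.1‖, by
    rw [Submonoid.unitSphere, Submonoid.mem_mk, Subsemigroup.mem_mk, mem_sphere_zero_iff_norm,
      norm_div, Complex.norm_real, norm_norm,
      div_self (norm_ne_zero_iff.2 (dirc_ne p.2))]⟩
  continuous_toFun := by
    refine Continuous.subtype_mk ?_ _
    have h0 : Continuous fun p : M => (p.1 : E 4) 0 := by fun_prop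
    have h1 : Continuous fun p : M => (p.1 : E 4) 1 - 1 := by fun_prop
    have hd : Continuous fun p : M => dirc p.1 := by
      have e : (fun p : M => dirc p.1) = fun p : M => (((p.1 : E 4) 0 : ℝ) : ℂ) +
          (((p.1 : E 4) 1 - 1 : ℝ) : ℂ) * Complex.I := by
        funext p
        apply Complex.ext <;> simp [dirc]
      rw [e]
      exact (Complex.continuous_ofReal.comp h0).add
        ((Complex.continuous_ofReal.comp h1).mul continuous_const)
    exact hd.div (Complex.continuous_ofReal.comp hd.norm) fun p => by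
      exact_mod_cast norm_ne_zero_iff.2 (dirc_ne p.2)

lemma from_to (p : M) : fromCircle (toCircle p) = p := by
  obtain ⟨x, y, hxy, hp⟩ := exists_dir p.2
  have hr := rr_pos y
  have hn : ‖(⟨x, y⟩ : ℂ)‖ = 1 := by
    rw [Complex.norm_def, Complex.normSq_mk]
    rw [show x * x + y * y = 1 by nlinarith, Real.sqrt_one]
  have h1 : (toCircle p : ℂ) = ⟨x, y⟩ := by
    change dirc p.1 / ‖dirc p.1‖ = _
    rw [hp, dirc_cv, norm_mul, hn, mul_one, Complex.norm_real, Real.norm_eq_abs,
      abs_of_pos (by positivity)]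
    have : ((1 / rr y : ℝ) : ℂ) ≠ 0 := by exact_mod_cast (by positivity : (1 / rr y : ℝ) ≠ 0)
    rw [mul_div_cancel_left₀ _ this]
  ext1
  change cv (toCircle p : ℂ).re (toCircle p : ℂ).im = p.1
  rw [h1, hp]

lemma null_M (f : C(sphere (0 : E 4) 1, M)) : f.Nullhomotopic := by
  have h1 := Pool.Agent.V11212.Sh.nullhomotopic_postcomp
    (Pool.Agent.V11212.Sh.sphere_circle (toCircle.comp f)) fromCircle
  have h2 : fromCircle.comp (toCircle.comp f) = f := by
    ext1 x
    exact from_to (f x)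
  rw [h2] at h1
  exact h1

/-- **Disproof.**  There is a smooth simple closed curve `M` in `ℝ⁴` such that for every scale
`β` in `(0,1/4)` and every `δ > 0` some finite set `S` within Hausdorff distance `δ` of `M` has a
shadow which is not homotopy equivalent to `M`. -/
theorem result : ∃ M : Set (E 4), SmoothClosedCurve M ∧
    ∀ β : ℝ, 0 < β → β < 1 / 4 → ∀ δ : ℝ, 0 < δ → ∃ S : Finset (E 4), S.Nonempty ∧
      hausdorffDist (S : Set (E 4)) M < δ ∧
      ¬ Nonempty (ContinuousMap.HomotopyEquiv (Shadow β (S : Set (E 4))) M) := by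
  refine ⟨M, ⟨γ, contDiff_γ, periodic_γ, deriv_γ_ne, injOn_γ, rfl⟩, ?_⟩
  intro β hβ0 hβ1 δ hδ
  exact Pool.Agent.V11212.Sh.bad_samples M isCompact_M sg_subset (fun x hx hn => loc hx hn)
    null_M hβ0 hβ1 hδ

end Pool.Agent.Results.MP_937632_gt.StraightPiece
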